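import Pool.Agent.H32.IP.Df

set_option autoImplicit false

namespace Pool.Agent.H32.IP

/- Proofs: (1) the inverse of a letter is a letter. (2) apply `Good` to a word of one letter. (3) apply `Good` to the
word `[(a.1, !a.2), b]`, which is reduced if `a ≠ b`. (4) Write `l = [v_1, ..., v_n]`, `v_(s+1) = φ (a_s) v_s`,
and suppose `v_1 = φ (a_n) v_n` (from `CA φ a b` and symmetry). The word `[a_n, a_(n-1), ..., a_1]` has
length `n ≤ K`, `φ` of it fixes `v_1`, so it is killed by `φ` (cancel `v_1`). It is reduced: if `a_(s+1)` is the inverse of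
`a_s` then `v_(s+2) = v_s` (for `s = n - 1`: `v_1 = v_(n-1)`), impossible since the entries are different and
`n ≥ 3`. (Hint: prove by induction on the list: for a nodup chain `v :: l` there is a list `A` of letters of length
`l.length`, reduced, with `last = φ (mk A) * v`, and such that its first letter is the last step ...; growing the path at
the end, or at the head after reversing, both work.) -/

theorem letter_not {q : ℕ} {Γ : Type} [Group Γ] (φ : FreeGroup (Fin q) →* Γ) (a : Fin q × Bool) :
    φ (letter (a.1, !a.2)) = (φ (letter a))⁻¹ := by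
  rw [← map_inv]
  rfl

theorem letter_inv_of {q : ℕ} {Γ : Type} [Group Γ] (φ : FreeGroup (Fin q) →* Γ) (a b : Fin q × Bool)
    (h1 : b.1 = a.1) (h2 : b.2 ≠ a.2) : φ (letter b) = (φ (letter a))⁻¹ := by
  have e : b = (a.1, !a.2) := by
    refine Prod.ext h1 ?_
    show b.2 = !a.2
    cases hb : b.2 <;> cases ha : a.2 <;> simp_all
  rw [e, letter_not]

theorem ca_symm {q : ℕ} {Γ : Type} [Group Γ] (φ : FreeGroup (Fin q) →* Γ) (x y : Γ)
    (h : CA φ x y) : CA φ y x := by
  obtain ⟨a, ha⟩ := h
  refine ⟨(a.1, !a.2), ?_⟩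
  rw [letter_not, ha, inv_mul_cancel_left]

theorem ca_irrefl {q : ℕ} {Γ : Type} [Group Γ] (K : ℕ) (hK : 1 ≤ K) (φ : FreeGroup (Fin q) →* Γ)
    (h : Good K φ) (x : Γ) : ¬ CA φ x x := by
  rintro ⟨a, ha⟩
  refine h [a] (List.isChain_singleton a) (by simp) (by simpa using hK) ?_
  have h1 : φ (letter a) * x = 1 * x := by rw [one_mul]; exact ha.symm
  exact mul_right_cancel h1

theorem letter_inj {q : ℕ} {Γ : Type} [Group Γ] (K : ℕ) (hK : 2 ≤ K) (φ : FreeGroup (Fin q) →* Γ)
    (h : Good K φ) (a b : Fin q × Bool) (hab : φ (letter a) = φ (letter b)) : a = b := by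
  by_contra hne
  refine h [(a.1, !a.2), b] ?_ (by simp) (by simpa using hK) ?_
  · rw [List.isChain_pair]
    intro h1
    show (!a.2) = b.2
    have h2 : a.2 ≠ b.2 := fun h2 => hne (Prod.ext h1 h2)
    cases hb : b.2 <;> cases ha : a.2 <;> simp_all
  · have e : FreeGroup.mk [(a.1, !a.2), b] = letter (a.1, !a.2) * letter b := rfl
    rw [e, map_mul, letter_not, hab, inv_mul_cancel]

theorem chain_word {q : ℕ} {Γ : Type} [Group Γ] (φ : FreeGroup (Fin q) →* Γ) :
    ∀ (l : List Γ) (v : Γ), (v :: l).Nodup → (v :: l).IsChain (CA φ) →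
      ∃ A : List (Fin q × Bool), A.length = l.length ∧
        A.IsChain (fun a b => a.1 = b.1 → a.2 = b.2) ∧
        (v :: l).getLast (by simp) = φ (FreeGroup.mk A) * v ∧
        (∀ b ∈ A.getLast?, ∀ w ∈ l.head?, w = φ (letter b) * v) ∧
        (∀ b ∈ A.head?, ∃ u ∈ v :: l, (v :: l).getLast (by simp) = φ (letter b) * u ∧
          (2 ≤ l.length → u ∈ l)) := by
  intro l
  induction l with
  | nil =>
    intro v _ _
    refine ⟨[], rfl, List.isChain_nil, ?_, by simp, by simp⟩
    have e : FreeGroup.mk ([] : List (Fin q × Bool)) = 1 := rfl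
    rw [e, map_one, one_mul]
    rfl
  | cons w l' ih =>
    intro v hn hc
    obtain ⟨A', h1, h2, h3, h4, h5⟩ := ih w (List.nodup_cons.1 hn).2 (List.isChain_cons_cons.1 hc).2
    obtain ⟨a, ha⟩ := (List.isChain_cons_cons.1 hc).1
    have hvl : v ∉ w :: l' := (List.nodup_cons.1 hn).1
    have hlast : (v :: w :: l').getLast (by simp) = (w :: l').getLast (by simp) :=
      List.getLast_cons (by simp)
    refine ⟨A' ++ [a], by simp [h1], ?_, ?_, ?_, ?_⟩
    · rw [List.isChain_append]
      refine ⟨h2, List.isChain_singleton a, ?_⟩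
      intro b hb c hcc
      rw [List.head?_cons, Option.mem_some_iff] at hcc
      subst hcc
      intro hba
      by_contra hne
      cases l' with
      | nil =>
        have : A' = [] := List.length_eq_zero_iff.1 h1
        rw [this] at hb
        simp at hb
      | cons u l'' =>
        have hu : u = φ (letter b) * w := h4 b hb u (by simp)
        rw [letter_inv_of φ a b hba hne, ha, inv_mul_cancel_left] at hu
        apply hvl
        rw [hu]
        simp
    · rw [hlast, h3]
      have e : FreeGroup.mk (A' ++ [a]) = FreeGroup.mk A' * letter a := rfl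
      rw [e, map_mul, mul_assoc, ← ha]
    · intro b hb x hx
      rw [List.getLast?_append_of_ne_nil _ (by simp)] at hb
      simp at hb hx
      rw [← hb, ← hx]
      exact ha
    · intro b hb
      rw [hlast]
      cases A' with
      | nil =>
        have hl' : l' = [] := List.length_eq_zero_iff.1 h1.symm
        subst hl'
        simp at hb
        refine ⟨v, by simp, ?_, by simp⟩
        rw [← hb]
        exact ha
      | cons b' A'' =>
        have hb' : b ∈ (b' :: A'').head? := by simpa using hb
        obtain ⟨u, hu, hu', _⟩ := h5 b hb'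
        exact ⟨u, List.mem_cons_of_mem _ hu, hu', fun _ => hu⟩

theorem no_short {q : ℕ} {Γ : Type} [Group Γ] (K : ℕ) (φ : FreeGroup (Fin q) →* Γ) (h : Good K φ)
    (l : List Γ) (hl : l.Nodup) (hc : l.IsChain (CA φ)) (h3 : 3 ≤ l.length) (hK : l.length ≤ K) :
    ∀ a ∈ l.head?, ∀ b ∈ l.getLast?, ¬ CA φ a b := by
  intro a ha b hb hab
  cases l with
  | nil => simp at ha
  | cons v l0 =>
    rw [List.head?_cons, Option.mem_some_iff] at ha
    subst ha
    rw [List.getLast?_eq_getLast_of_ne_nil (by simp), Option.mem_some_iff] at hb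
    obtain ⟨A, h1, h2, h7, _, h5⟩ := chain_word φ l0 v hl hc
    obtain ⟨c, hcc⟩ := ca_symm φ v b hab
    refine h (c :: A) ?_ (by simp) (by simpa [h1] using hK) ?_
    · cases A with
      | nil => exact List.isChain_singleton c
      | cons d A' =>
        rw [List.isChain_cons_cons]
        refine ⟨?_, h2⟩
        intro hcd
        by_contra hne
        obtain ⟨u, _, hu, hu'⟩ := h5 d (by simp)
        have hul : u ∈ l0 := hu' (by simpa using h3)
        rw [hb] at hu
        rw [letter_inv_of φ d c hcd hne, hu, inv_mul_cancel_left] at hcc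
        exact (List.nodup_cons.1 hl).1 (hcc ▸ hul)
    · have e : FreeGroup.mk (c :: A) = letter c * FreeGroup.mk A := rfl
      have h6 : φ (FreeGroup.mk (c :: A)) * v = 1 * v := by
        rw [e, map_mul, mul_assoc, ← h7, hb, ← hcc, one_mul]
      exact mul_right_cancel h6

end Pool.Agent.H32.IP
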