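import Pool.Agent.H32.IP.Df

set_option autoImplicit false

namespace Pool.Agent.H32.IP

/- (1) `f j` is the `j`-th entry of the list. (2) every ordered pair of adjacent vertices has exactly one colour. -/

theorem path_emb {V : Type} (R : V → V → Prop) (hs : ∀ x y, R x y → R y x) (S : Finset V) (k : ℕ)
    (h : HasPath R S k) : ∃ f : Fin k → V, Function.Injective f ∧
      ∀ u v : Fin k, (SimpleGraph.pathGraph k).Adj u v → R (f u) (f v) := by
  obtain ⟨l, hnd, hc, _, hl⟩ := h
  subst hl
  refine ⟨fun j => l[j.val]'j.isLt, ?_, ?_⟩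
  · intro i j hij
    exact Fin.ext ((List.Nodup.getElem_inj_iff hnd).1 hij)
  · intro u v huv
    rw [List.isChain_iff_getElem] at hc
    rw [SimpleGraph.pathGraph_adj] at huv
    rcases huv with h1 | h1
    · have h2 := hc u.val (by omega)
      have h3 : l[v.val]'v.isLt = l[u.val + 1]'(by omega) := by
        congr 1
        omega
      change R (l[u.val]'u.isLt) (l[v.val]'v.isLt)
      rw [h3]
      exact h2
    · have h2 := hc v.val (by omega)
      have h3 : l[u.val]'u.isLt = l[v.val + 1]'(by omega) := by
        congr 1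
        omega
      change R (l[u.val]'u.isLt) (l[v.val]'v.isLt)
      rw [h3]
      exact hs _ _ h2

theorem sum_pairs {V : Type} {q : ℕ} (R : V → V → Prop) (c : V → V → Fin q) (S : Finset V) :
    ∑ i : Fin q, pairs (fun x y => R x y ∧ c x y = i) S = pairs R S := by
  classical
  unfold pairs
  symm
  rw [Finset.card_eq_sum_card_fiberwise (f := fun p : V × V => c p.1 p.2) (t := (Finset.univ : Finset (Fin q)))
    (fun p _ => by simp)]
  apply Finset.sum_congr rfl
  intro i _
  rw [Finset.filter_filter]
  congr 1
  ext p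
  simp

/-- if each colour class of each colouring has few pairs unless it has a path, then the graph arrows the path -/
theorem arrows_of_count {V : Type} [Fintype V] (G : SimpleGraph V) (k q m : ℕ)
    (hm : ∀ R : V → V → Prop, (∀ x y, R x y → R y x) → (∀ x, ¬ R x x) → (∀ x y, R x y → G.Adj x y) →
      ¬ HasPath R Finset.univ k → pairs R Finset.univ ≤ m)
    (hq : q * m < pairs G.Adj Finset.univ) : Arrows G (SimpleGraph.pathGraph k) q := by
  intro c hc
  have h1 : ∃ i : Fin q, m < pairs (fun x y => G.Adj x y ∧ c x y = i) Finset.univ := by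
    by_contra hcon
    push Not at hcon
    have h2 := sum_pairs G.Adj c Finset.univ
    have h3 : ∑ i : Fin q, pairs (fun x y => G.Adj x y ∧ c x y = i) Finset.univ ≤ ∑ _i : Fin q, m :=
      Finset.sum_le_sum fun i _ => hcon i
    rw [h2, Finset.sum_const, Finset.card_univ, Fintype.card_fin, smul_eq_mul] at h3
    omega
  obtain ⟨i, hi⟩ := h1
  have hsym : ∀ x y, (G.Adj x y ∧ c x y = i) → (G.Adj y x ∧ c y x = i) := by
    intro x y h
    exact ⟨h.1.symm, by rw [← hc]; exact h.2⟩
  have h2 : HasPath (fun x y => G.Adj x y ∧ c x y = i) Finset.univ k := by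
    by_contra hcon
    have h3 := hm (fun x y => G.Adj x y ∧ c x y = i) hsym (fun x h => G.loopless.irrefl x h.1) (fun x y h => h.1) hcon
    omega
  obtain ⟨f, hf, h3⟩ := path_emb _ hsym Finset.univ k h2
  exact ⟨f, hf, fun u v huv => (h3 u v huv).1, i, fun u v huv => (h3 u v huv).2⟩

end Pool.Agent.H32.IP
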