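import Pool.Agent.H32.IP.Fc
import Pool.Agent.H32.IP.Cv
import Pool.Agent.H32.IP.CYa

set_option autoImplicit false

namespace Pool.Agent.H32.IP

/- (1) each `x` has exactly the `2 q` different neighbours `φ (letter a) * x` (`letter_inj`).
(2) `arrows_of_count` with `m = 2 |Γ| - 2` (`|Γ| ≥ 1`), `pairs_forest` (with `hcyc` from `no_short`, as `k ≤ K`;
a chain for `R` is a chain for `CA φ`) and (1): `q (2 |Γ| - 2) < 2 q |Γ|`. -/

theorem pairs_ca {q : ℕ} {Γ : Type} [Group Γ] [Fintype Γ] (K : ℕ) (hK : 2 ≤ K)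
    (φ : FreeGroup (Fin q) →* Γ) (h : Good K φ) :
    pairs (CA φ) Finset.univ = 2 * q * Fintype.card Γ := by
  classical
  unfold pairs
  have hinj : Function.Injective
      (fun p : Γ × (Fin q × Bool) => ((p.1, φ (letter p.2) * p.1) : Γ × Γ)) := by
    rintro ⟨x, a⟩ ⟨y, b⟩ hxy
    simp only [Prod.mk.injEq] at hxy
    obtain ⟨h1, h2⟩ := hxy
    subst h1
    have h3 := mul_right_cancel h2
    rw [letter_inj K hK φ h a b h3]
  have himg : ((Finset.univ ×ˢ Finset.univ : Finset (Γ × Γ)).filter (fun p => CA φ p.1 p.2)) =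
      (Finset.univ : Finset (Γ × (Fin q × Bool))).image
        (fun p : Γ × (Fin q × Bool) => ((p.1, φ (letter p.2) * p.1) : Γ × Γ)) := by
    ext p
    obtain ⟨x, y⟩ := p
    simp only [Finset.mem_filter, Finset.mem_product, Finset.mem_univ, true_and, and_self,
      Finset.mem_image, Prod.mk.injEq, Prod.exists]
    constructor
    · rintro ⟨a, ha⟩
      exact ⟨x, a.1, a.2, rfl, ha.symm⟩
    · rintro ⟨x', i, b, hx, hy⟩
      subst hx
      exact ⟨(i, b), hy.symm⟩
  have e : ((Finset.univ ×ˢ Finset.univ : Finset (Γ × Γ)).filter (fun p => CA φ p.1 p.2)).card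
      = 2 * q * Fintype.card Γ := by
    rw [himg, Finset.card_image_of_injective _ hinj, Finset.card_univ, Fintype.card_prod,
      Fintype.card_prod, Fintype.card_fin, Fintype.card_bool]
    ring
  convert e using 2

theorem cay_arrows {q : ℕ} (hq : 1 ≤ q) {Γ : Type} [Group Γ] [Fintype Γ] (K k : ℕ) (hK : 2 ≤ K)
    (hk : k ≤ K) (φ : FreeGroup (Fin q) →* Γ) (h : Good K φ) (G : SimpleGraph Γ)
    (hG : ∀ x y, G.Adj x y ↔ CA φ x y) : Arrows G (SimpleGraph.pathGraph k) q := by
  classical
  have hcard : 1 ≤ Fintype.card Γ := Fintype.card_pos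
  have hGe : pairs G.Adj Finset.univ = pairs (CA φ) Finset.univ := by
    have : G.Adj = CA φ := by
      funext x y
      exact propext (hG x y)
    rw [this]
  refine arrows_of_count G k q (2 * Fintype.card Γ - 2) ?_ ?_
  · intro R hs hi hR hno
    have h1 := pairs_forest R hs hi k ?_ Finset.univ Finset.univ_nonempty hno
    · rw [Finset.card_univ] at h1
      omega
    · intro l hl hc h3 hlk a ha b hb hab
      have hc' : l.IsChain (CA φ) := hc.imp (fun x y hxy => (hG x y).1 (hR x y hxy))
      exact no_short K φ h l hl hc' h3 (by omega) a ha b hb ((hG a b).1 (hR a b hab))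
  · rw [hGe, pairs_ca K hK φ h]
    have h2 : 2 * Fintype.card Γ - 2 < 2 * Fintype.card Γ := by omega
    calc q * (2 * Fintype.card Γ - 2) < q * (2 * Fintype.card Γ) :=
          Nat.mul_lt_mul_of_pos_left h2 (by omega)
      _ = 2 * q * Fintype.card Γ := by ring

end Pool.Agent.H32.IP
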