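import Pool.Agent.H32.IP.CYa

set_option autoImplicit false

namespace Pool.Agent.H32.IP

/- Proof: colour the edge `x y`, `y = φ (letter a) * x`, with the generator `a.1` (well defined and symmetric by `letter_inj`
and since the inverse of `letter a` is the letter `(a.1, !a.2)`; any colour for other pairs, `q ≥ 1`). Take the
monochromatic copy `f`, colour `i`, and `g = φ (FreeGroup.of i)`; `g ^ m ≠ 1` for `1 ≤ m ≤ K` (`Good` for the word
`List.replicate m (i, true)`), so `orderOf g > K` (`Γ` is finite). All `f w` lie in one orbit: fix `w0` (`H.Connected`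
is nonempty), `x0 = f w0`, by connectedness (induction over walks / `Relation.ReflTransGen`) `f w = g ^ n * x0` for an
`n : ℤ`. The `K` elements `g ^ n * x0`, `0 ≤ n < K`, are different and `|W| < K`, so one of them, `y`, is not in the
range of `f`. Every `f w` is `g ^ n * y` for exactly one natural `n < orderOf g`, and `n ≠ 0`; this is `j w`. If
`H.Adj u v`, then `f v = g * f u` or `f u = g * f v`; in the first case `g ^ (j u + 1) * y = f v`, `j u + 1 < orderOf g`
(else `f v = y`), hence `j v = j u + 1`. -/

private theorem mk_rep {q : ℕ} (i : Fin q) (m : ℕ) :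
    FreeGroup.mk (List.replicate m (i, true)) = (FreeGroup.of i) ^ m := by
  induction m with
  | zero => rfl
  | succ m ih =>
    rw [pow_succ', ← ih]
    show _ = FreeGroup.mk [(i, true)] * _
    rw [FreeGroup.mul_mk]
    rfl

private theorem letter_inv {q : ℕ} (a : Fin q × Bool) : (letter a)⁻¹ = letter (a.1, !a.2) := by
  unfold letter
  rw [FreeGroup.inv_mk]
  rfl

private theorem walk_pow {W Γ : Type} [Group Γ] (H : SimpleGraph W) (f : W → Γ) (g : Γ)
    (hE : ∀ u v, H.Adj u v → f v = g * f u ∨ f u = g * f v) {u v : W} (p : H.Walk u v) :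
    ∃ n : ℤ, f v = g ^ n * f u := by
  induction p with
  | nil => exact ⟨0, by simp⟩
  | @cons a b c hab p ih =>
    obtain ⟨n, hn⟩ := ih
    rcases hE a b hab with h | h
    · refine ⟨n + 1, ?_⟩
      rw [hn, h, zpow_add_one, mul_assoc]
    · refine ⟨n - 1, ?_⟩
      rw [hn, h, zpow_sub_one]
      group

theorem cay_path {q : ℕ} (hq : 1 ≤ q) {Γ : Type} [Group Γ] [Fintype Γ] (K : ℕ) (hK : 2 ≤ K)
    (φ : FreeGroup (Fin q) →* Γ) (h : Good K φ) (G : SimpleGraph Γ)
    (hG : ∀ x y, G.Adj x y ↔ CA φ x y) {W : Type} [Fintype W] (H : SimpleGraph W)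
    (hc : H.Connected) (hW : Fintype.card W < K) (hA : Arrows G H q) :
    ∃ j : W → ℕ, Function.Injective j ∧ ∀ u v : W, H.Adj u v → j u + 1 = j v ∨ j v + 1 = j u := by
  classical
  let c : Γ → Γ → Fin q := fun x y => if hx : CA φ x y then (Classical.choose hx).1 else ⟨0, hq⟩
  have hcs : ∀ a b, c a b = c b a := by
    intro a b
    by_cases hab : CA φ a b
    · have hba := ca_symm φ a b hab
      have e1 : c a b = (Classical.choose hab).1 := dif_pos hab
      have e2 : c b a = (Classical.choose hba).1 := dif_pos hba
      have s1 := Classical.choose_spec hab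
      have s2 := Classical.choose_spec hba
      set u := Classical.choose hab with hu
      set v := Classical.choose hba with hv
      have h1 : φ (letter v) = φ (letter (u.1, !u.2)) := by
        rw [← letter_inv, map_inv, eq_inv_iff_mul_eq_one]
        have h2 : φ (letter v) * φ (letter u) * a = 1 * a := by
          rw [one_mul, mul_assoc, ← s1, ← s2]
        exact mul_right_cancel h2
      have h3 := letter_inj K hK φ h _ _ h1
      rw [e1, e2, h3]
    · have hba : ¬ CA φ b a := fun h' => hab (ca_symm φ b a h')
      have e1 : c a b = ⟨0, hq⟩ := dif_neg hab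
      have e2 : c b a = ⟨0, hq⟩ := dif_neg hba
      rw [e1, e2]
  obtain ⟨f, hf, hfG, i, hi⟩ := hA c hcs
  set g : Γ := φ (FreeGroup.of i) with hg
  have hE : ∀ u v, H.Adj u v → f v = g * f u ∨ f u = g * f v := by
    intro u v huv
    have hca : CA φ (f u) (f v) := (hG _ _).1 (hfG u v huv)
    have e1 : c (f u) (f v) = (Classical.choose hca).1 := dif_pos hca
    have s1 := Classical.choose_spec hca
    have h1 := hi u v huv
    rw [e1] at h1
    set a := Classical.choose hca with ha
    obtain ⟨a1, a2⟩ := a
    simp only at h1
    subst h1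
    cases a2 with
    | true => left; exact s1
    | false =>
      right
      have h2 : letter (a1, false) = (FreeGroup.of a1)⁻¹ := by
        have := letter_inv (a1, true)
        simp only [Bool.not_true] at this
        rw [← this]
        rfl
      rw [s1, h2, map_inv, ← hg, mul_inv_cancel_left]
  have hord : K < orderOf g := by
    by_contra hcon
    push Not at hcon
    have hpos : 0 < orderOf g := orderOf_pos g
    have h1 := h (List.replicate (orderOf g) (i, true))
      (List.isChain_replicate_of_rel _ (fun _ => rfl)) (by
        intro h0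
        have h2 := congrArg List.length h0
        rw [List.length_replicate, List.length_nil] at h2
        omega) (by rw [List.length_replicate]; exact hcon)
    apply h1
    rw [mk_rep, map_pow, ← hg, pow_orderOf_eq_one]
  obtain ⟨w0⟩ := hc.nonempty
  have hz : ∀ w, ∃ n : ℤ, f w = g ^ n * f w0 := by
    intro w
    obtain ⟨p⟩ := hc.preconnected w0 w
    exact walk_pow H f g hE p
  -- a point outside of the range
  obtain ⟨n0, hn0, hy⟩ : ∃ n0 : ℕ, n0 < K ∧ ∀ w, f w ≠ g ^ n0 * f w0 := by
    by_contra hcon
    push Not at hcon
    have : Nonempty W := ⟨w0⟩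
    choose! k hk using hcon
    have hinj : Function.Injective (fun n : Fin K => k n.1) := by
      intro a b hab
      simp only at hab
      have ha := hk a.1 a.2
      have hb := hk b.1 b.2
      rw [hab, hb] at ha
      have h1 := mul_right_cancel ha
      have h2 := pow_injOn_Iio_orderOf (x := g) (by simp only [Set.mem_Iio]; have := b.2; omega)
        (by simp only [Set.mem_Iio]; have := a.2; omega) h1
      exact Fin.ext h2.symm
    have := Fintype.card_le_of_injective _ hinj
    rw [Fintype.card_fin] at this
    omega
  set y : Γ := g ^ n0 * f w0 with hyd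
  have hj : ∀ w, ∃ j : ℕ, j < orderOf g ∧ f w = g ^ j * y := by
    intro w
    obtain ⟨n, hn⟩ := hz w
    have hpos : (0 : ℤ) < orderOf g := by
      have := orderOf_pos g
      exact_mod_cast this
    refine ⟨((n - n0) % (orderOf g : ℤ)).toNat, ?_, ?_⟩
    · have h1 := Int.emod_lt_of_pos (n - n0) hpos
      have h2 := Int.emod_nonneg (n - n0) hpos.ne'
      omega
    · have h2 := Int.emod_nonneg (n - n0) hpos.ne'
      have h3 : g ^ ((n - n0) % (orderOf g : ℤ)).toNat = g ^ (n - n0) := by
        rw [← zpow_natCast, Int.toNat_of_nonneg h2, zpow_mod_orderOf]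
      rw [h3, hyd, hn, zpow_sub, zpow_natCast]
      group
  choose j hj1 hj2 using hj
  refine ⟨j, ?_, ?_⟩
  · intro u v huv
    apply hf
    rw [hj2 u, hj2 v, huv]
  · have key : ∀ u v, f v = g * f u → j u + 1 = j v := by
      intro u v huv
      have h1 : g ^ (j u + 1) * y = g ^ (j v) * y := by
        rw [← hj2 v, huv, hj2 u, pow_succ', mul_assoc]
      have h2 := mul_right_cancel h1
      have h3 : j u + 1 < orderOf g := by
        rcases Nat.lt_or_ge (j u + 1) (orderOf g) with h4 | h4
        · exact h4
        · exfalso
          have h5 : j u + 1 = orderOf g := by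
            have := hj1 u
            omega
          rw [h5, pow_orderOf_eq_one] at h2
          apply hy v
          rw [hj2 v, ← h2, one_mul]
      exact pow_injOn_Iio_orderOf (x := g) h3 (hj1 v) h2
    intro u v huv
    rcases hE u v huv with h1 | h1
    · exact Or.inl (key u v h1)
    · exact Or.inr (key v u h1)

end Pool.Agent.H32.IP
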