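import Mathlib

/-!
Paths are isolated in multicolour graph Ramsey theory: definitions for the project MP_b356f0_IP.
-/

set_option autoImplicit false

namespace Pool.Agent.H32.IP

/-- `G → (H)_q`: every symmetric colouring with `q` colours has a monochromatic copy of `H`. -/
def Arrows {V W : Type} (G : SimpleGraph V) (H : SimpleGraph W) (q : ℕ) : Prop :=
  ∀ c : V → V → Fin q, (∀ a b : V, c a b = c b a) →
    ∃ f : W → V, Function.Injective f ∧ (∀ u v : W, H.Adj u v → G.Adj (f u) (f v)) ∧
      ∃ i : Fin q, ∀ u v : W, H.Adj u v → c (f u) (f v) = i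

/-- `q`-equivalence of two graphs. -/
def Equivalent {W W' : Type} (q : ℕ) (H : SimpleGraph W) (H' : SimpleGraph W') : Prop :=
  ∀ (n : ℕ) (G : SimpleGraph (Fin n)), Arrows G H q ↔ Arrows G H' q

/-- There is a path with exactly `k` vertices of `S` in the relation `R`. -/
def HasPath {V : Type} (R : V → V → Prop) (S : Finset V) (k : ℕ) : Prop :=
  ∃ l : List V, l.Nodup ∧ l.IsChain R ∧ (∀ x ∈ l, x ∈ S) ∧ l.length = k

open Classical in
/-- The number of ordered pairs of elements of `S` in the relation `R`. -/
noncomputable def pairs {V : Type} (R : V → V → Prop) (S : Finset V) : ℕ :=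
  ((S ×ˢ S).filter (fun p => R p.1 p.2)).card

open Classical in
/-- The number of neighbours of `x` in `S`. -/
noncomputable def deg {V : Type} (R : V → V → Prop) (S : Finset V) (x : V) : ℕ :=
  (S.filter (fun y => R x y)).card

/-- The gadget: `r` groups of `t` hub vertices, joined to all vertices of `N` disjoint copies of the complete graph
on `k` vertices. -/
def gad (r t N k : ℕ) : SimpleGraph ((Fin r × Fin t) ⊕ (Fin N × Fin k)) where
  Adj x y := match x, y with
    | Sum.inl _, Sum.inl _ => False
    | Sum.inl _, Sum.inr _ => True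
    | Sum.inr _, Sum.inl _ => True
    | Sum.inr a, Sum.inr b => a.1 = b.1 ∧ a.2 ≠ b.2
  symm := by
    constructor
    intro x y h
    rcases x with x | x <;> rcases y with y | y
    · exact h
    · exact h
    · exact h
    · exact ⟨h.1.symm, h.2.symm⟩
  loopless := by
    constructor
    intro x h
    rcases x with x | x
    · exact h
    · exact h.2 rfl

/-- The letter `(i, b)` as an element of the free group: the generator `i` or its inverse. -/
def letter {q : ℕ} (a : Fin q × Bool) : FreeGroup (Fin q) := FreeGroup.mk [a]

/-- No nonempty reduced word of length at most `K` is killed by `φ`. -/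
def Good {q : ℕ} {Γ : Type} [Group Γ] (K : ℕ) (φ : FreeGroup (Fin q) →* Γ) : Prop :=
  ∀ L : List (Fin q × Bool), L.IsChain (fun a b => a.1 = b.1 → a.2 = b.2) → L ≠ [] → L.length ≤ K →
    φ (FreeGroup.mk L) ≠ 1

/-- Adjacency in the Cayley graph: left multiplication by a generator or the inverse of a generator. -/
def CA {q : ℕ} {Γ : Type} [Group Γ] (φ : FreeGroup (Fin q) →* Γ) (x y : Γ) : Prop :=
  ∃ a : Fin q × Bool, y = φ (letter a) * x

end Pool.Agent.H32.IP
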