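import Pool.Agent.H32.IP.Df

set_option autoImplicit false

namespace Pool.Agent.H32.IP

/- Rotation lemma. Proof: let `l = [v_1, ..., v_L]` (`L = l.length ≥ 1`). As there is no path with `L + 1` vertices
in `S`, all neighbours in `S` of `v_1` and of `v_L` lie in `l` (else put the neighbour in front of `v_1`, resp. behind
`v_L`; reverse the list, `R` is symmetric). The sets `A = {j ∈ 1..L-1 : R v_1 v_(j+1)}` and
`B = {j ∈ 1..L-1 : R v_j v_L}` have at least `L / 2` elements each, `|A| + |B| ≥ L > L - 1` (if `L = 1` the degree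
of `v_1` would be at least `1/2`, but it has no neighbour in `l`: contradiction), so there is `j` in both and
`v_1 ... v_j v_L v_(L-1) ... v_(j+1) v_1` is a cycle through all vertices of `l`. If some `x ∈ l` had a neighbour
`y ∈ S`, `y ∉ l`, then cutting the cycle at `x` and adding `y` gives a path with `L + 1` vertices: contradiction.
(Hint: it may be easier to work with a lemma: if a list `m` is a permutation of `l`, `m.IsChain R`,
and `R` relates its last element to its head, then every rotation of `m` is a chain; `List.IsRotated`, `List.rotate`.) -/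

theorem rot_of_mem {V : Type} {R : V → V → Prop} {m : List V} (hm : m.IsChain R)
    (hcl : ∀ x ∈ m.getLast?, ∀ y ∈ m.head?, R x y) {x : V} (hx : x ∈ m) :
    ∃ m' : List V, m'.Perm m ∧ m'.IsChain R ∧ m'.head? = some x := by
  obtain ⟨s, t, rfl⟩ := List.append_of_mem hx
  refine ⟨x :: t ++ s, List.perm_append_comm, ?_, rfl⟩
  rw [List.isChain_append] at hm ⊢
  refine ⟨hm.2.1, hm.1, fun a ha b hb => hcl a ?_ b ?_⟩
  · exact List.mem_getLast?_append_of_mem_getLast? ha
  · exact List.mem_head?_append_of_mem_head? hb

theorem closed_of_long {V : Type} (R : V → V → Prop) (hs : ∀ x y, R x y → R y x)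
    (hi : ∀ x, ¬ R x x) (S : Finset V) (l : List V) (hl : l.Nodup) (hc : l.IsChain R)
    (hS : ∀ x ∈ l, x ∈ S) (hne : l ≠ []) (hmax : ¬ HasPath R S (l.length + 1))
    (hdeg : ∀ x ∈ S, l.length ≤ 2 * deg R S x) : ∀ x ∈ l, ∀ y ∈ S, R x y → y ∈ l := by
  classical
  have hstep : ∀ m' : List V, m'.Perm l → m'.IsChain R → ∀ x, m'.head? = some x →
      ∀ y ∈ S, R x y → y ∈ l := by
    intro m' hp hm' x hx y hy hxy
    by_contra hyl
    refine hmax ⟨y :: m', List.nodup_cons.2 ⟨fun h => hyl (hp.mem_iff.1 h), hp.nodup_iff.2 hl⟩,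
      ?_, ?_, ?_⟩
    · rw [List.isChain_cons]
      refine ⟨fun z hz => ?_, hm'⟩
      rw [hx] at hz
      have : x = z := by simpa using hz
      rw [← this]
      exact hs _ _ hxy
    · intro z hz
      rcases List.mem_cons.1 hz with h | h
      · rw [h]; exact hy
      · exact hS z (hp.mem_iff.1 h)
    · rw [List.length_cons, hp.length_eq]
  have hpos : 0 < l.length := List.length_pos_iff.2 hne
  have hflip : ∀ k : List V, k.IsChain R → k.reverse.IsChain R := by
    intro k hk
    rw [List.isChain_reverse]
    exact hk.imp (fun a b hab => hs a b hab)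
  have h0 : ∀ y ∈ S, R l[0] y → y ∈ l :=
    hstep l (List.Perm.refl l) hc l[0] (by rw [List.head?_eq_getElem?, List.getElem?_eq_getElem hpos])
  have hL : ∀ y ∈ S, R (l[l.length - 1]'(by omega)) y → y ∈ l := by
    refine hstep l.reverse (List.reverse_perm l) (hflip l hc) _ ?_
    rw [List.head?_reverse, List.getLast?_eq_getElem?, List.getElem?_eq_getElem (by omega)]
  let g : ℕ → V := fun i => l.getD i l[0]
  have hg : ∀ i (hi : i < l.length), g i = l[i] := fun i hi => by
    change l.getD i l[0] = l[i]
    rw [List.getD_eq_getElem _ _ hi]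
  let A : Finset ℕ := (Finset.range (l.length - 1)).filter (fun j => R (g 0) (g (j + 1)))
  let B : Finset ℕ := (Finset.range (l.length - 1)).filter (fun j => R (g (l.length - 1)) (g j))
  have hA : l.length ≤ 2 * A.card := by
    refine (hdeg (g 0) (hS _ (by rw [hg 0 hpos]; exact List.getElem_mem _))).trans ?_
    refine Nat.mul_le_mul_left 2 ?_
    refine le_trans (Finset.card_le_card (t := A.image (fun j => g (j + 1))) ?_) Finset.card_image_le
    intro y hy
    rw [Finset.mem_filter] at hy
    have hyl : y ∈ l := h0 y hy.1 (by rw [← hg 0 hpos]; exact hy.2)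
    obtain ⟨i, hi', hiy⟩ := List.getElem_of_mem hyl
    rw [← hg i hi'] at hiy
    have hi0 : i ≠ 0 := by
      rintro rfl
      rw [hiy] at hy
      exact hi y hy.2
    rw [Finset.mem_image]
    refine ⟨i - 1, ?_, ?_⟩
    · refine Finset.mem_filter.2 ⟨Finset.mem_range.2 (by omega), ?_⟩
      rw [Nat.sub_add_cancel (Nat.pos_of_ne_zero hi0), hiy]
      exact hy.2
    · change g (i - 1 + 1) = y
      rw [Nat.sub_add_cancel (Nat.pos_of_ne_zero hi0), hiy]
  have hB : l.length ≤ 2 * B.card := by
    have hlt : l.length - 1 < l.length := by omega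
    refine (hdeg (g (l.length - 1)) (hS _ (by rw [hg _ hlt]; exact List.getElem_mem _))).trans ?_
    refine Nat.mul_le_mul_left 2 ?_
    refine le_trans (Finset.card_le_card (t := B.image g) ?_) Finset.card_image_le
    intro y hy
    rw [Finset.mem_filter] at hy
    have hyl : y ∈ l := hL y hy.1 (by rw [← hg _ hlt]; exact hy.2)
    obtain ⟨i, hi', hiy⟩ := List.getElem_of_mem hyl
    rw [← hg i hi'] at hiy
    have hi0 : i ≠ l.length - 1 := by
      rintro rfl
      rw [hiy] at hy
      exact hi y hy.2
    rw [Finset.mem_image]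
    refine ⟨i, ?_, hiy⟩
    refine Finset.mem_filter.2 ⟨Finset.mem_range.2 (by omega), ?_⟩
    rw [hiy]
    exact hy.2
  have hun : (A ∪ B).card ≤ l.length - 1 := by
    have : A ∪ B ⊆ Finset.range (l.length - 1) :=
      Finset.union_subset (Finset.filter_subset _ _) (Finset.filter_subset _ _)
    have h := Finset.card_le_card this
    rwa [Finset.card_range] at h
  have hint : 0 < (A ∩ B).card := by
    have := Finset.card_union_add_card_inter A B
    omega
  obtain ⟨j, hj⟩ := Finset.card_pos.1 hint
  rw [Finset.mem_inter] at hj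
  have hjA := (Finset.mem_filter.1 hj.1).2
  have hjB := (Finset.mem_filter.1 hj.2).2
  have hjr : j < l.length - 1 := Finset.mem_range.1 (Finset.mem_filter.1 hj.1).1
  -- the two parts
  obtain ⟨a, ha⟩ : ∃ a, a = l.take (j + 1) := ⟨_, rfl⟩
  obtain ⟨b, hb⟩ : ∃ b, b = l.drop (j + 1) := ⟨_, rfl⟩
  have hab : a ++ b = l := by rw [ha, hb, List.take_append_drop]
  have ha0 : a.head? = some (g 0) := by
    rw [ha, List.head?_take, if_neg (by omega), hg 0 hpos, List.head?_eq_getElem?,
      List.getElem?_eq_getElem hpos]
  have ha1 : a.getLast? = some (g j) := by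
    rw [ha, List.getLast?_take, if_neg (by omega), hg j (by omega), Nat.add_sub_cancel,
      List.getElem?_eq_getElem (by omega)]
    rfl
  have hb0 : b.head? = some (g (j + 1)) := by
    rw [hb, List.head?_drop, hg (j + 1) (by omega), List.getElem?_eq_getElem (by omega)]
  have hb1 : b.getLast? = some (g (l.length - 1)) := by
    rw [hb, List.getLast?_drop, if_neg (by omega), hg (l.length - 1) (by omega),
      List.getLast?_eq_getElem?, List.getElem?_eq_getElem (by omega)]
  have hca : a.IsChain R ∧ b.IsChain R := by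
    rw [← hab, List.isChain_append] at hc
    exact ⟨hc.1, hc.2.1⟩
  have hmc : (a ++ b.reverse).IsChain R := by
    rw [List.isChain_append]
    refine ⟨hca.1, hflip b hca.2, fun x hx y hy => ?_⟩
    rw [ha1] at hx
    rw [List.head?_reverse, hb1] at hy
    have e1 : g j = x := by simpa using hx
    have e2 : g (l.length - 1) = y := by simpa using hy
    rw [← e1, ← e2]
    exact hs _ _ hjB
  have hmp : (a ++ b.reverse).Perm l := by
    rw [← hab]
    exact List.Perm.append_left a (List.reverse_perm b)
  have hcl : ∀ x ∈ (a ++ b.reverse).getLast?, ∀ y ∈ (a ++ b.reverse).head?, R x y := by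
    intro x hx y hy
    rw [List.getLast?_append, List.getLast?_reverse, hb0] at hx
    rw [List.head?_append, ha0] at hy
    have e1 : g (j + 1) = x := by simpa using hx
    have e2 : g 0 = y := by simpa using hy
    rw [← e1, ← e2]
    exact hs _ _ hjA
  intro x hx y hy hxy
  obtain ⟨m', hp', hc', hx'⟩ := rot_of_mem hmc hcl (hmp.mem_iff.2 hx)
  exact hstep m' (hp'.trans hmp) hc' x hx' y hy hxy

end Pool.Agent.H32.IP
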