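import Pool.Agent.H32.IP.Pr
import Pool.Agent.H32.IP.EGa

set_option autoImplicit false

namespace Pool.Agent.H32.IP

/- Erdős-Gallai for paths. Proof: induction on `|S|`; `S = ∅` is trivial. If some `v ∈ S` has
`2 * deg R S v ≤ k - 2`, then `pairs_erase` and the induction hypothesis for `S.erase v`. Otherwise
`k - 1 ≤ 2 * deg R S x` for all `x ∈ S`. Let `l` be a longest path in `S` (a list of maximal length among the nodup
chains in `S`); it is not empty as `S` is not empty, and `l.length ≤ k - 1`, since the first `k` entries of a longer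
path are a path with `k` vertices. By `closed_of_long` the set `T = l.toFinset` is closed, so
`pairs R S = pairs R T + pairs R (S \ T) ≤ |T| (|T| - 1) + (k - 2) |S \ T| ≤ (k - 2) |S|`. -/

theorem EGb_mono {V : Type} {R : V → V → Prop} {S T : Finset V} (h : S ⊆ T) {k : ℕ}
    (hp : HasPath R S k) : HasPath R T k := by
  obtain ⟨l, h1, h2, h3, h4⟩ := hp
  exact ⟨l, h1, h2, fun x hx => h (h3 x hx), h4⟩

theorem EGb_take {V : Type} {R : V → V → Prop} {S : Finset V} {k m : ℕ} (hkm : k ≤ m)
    (hp : HasPath R S m) : HasPath R S k := by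
  obtain ⟨l, h1, h2, h3, h4⟩ := hp
  refine ⟨l.take k, h1.sublist (List.take_sublist k l), h2.take k,
    fun x hx => h3 x (List.mem_of_mem_take hx), ?_⟩
  rw [List.length_take, h4]
  exact min_eq_left hkm

theorem EGb_card {V : Type} {R : V → V → Prop} {S : Finset V} {k : ℕ}
    (hp : HasPath R S k) : k ≤ S.card := by
  classical
  obtain ⟨l, h1, h2, h3, h4⟩ := hp
  rw [← h4, ← List.toFinset_card_of_nodup h1]
  exact Finset.card_le_card fun x hx => h3 x (List.mem_toFinset.1 hx)

theorem pairs_le {V : Type} (R : V → V → Prop) (hs : ∀ x y, R x y → R y x)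
    (hi : ∀ x, ¬ R x x) (k : ℕ) (hk : 2 ≤ k) (S : Finset V) (hno : ¬ HasPath R S k) :
    pairs R S ≤ (k - 2) * S.card := by
  classical
  revert hno
  refine Finset.strongInduction (p := fun S => ¬ HasPath R S k → pairs R S ≤ (k - 2) * S.card)
    (fun S ih hno => ?_) S
  rcases S.eq_empty_or_nonempty with rfl | ⟨s0, hs0⟩
  · simp [pairs]
  by_cases hdeg : ∃ v ∈ S, 2 * deg R S v ≤ k - 2
  · obtain ⟨v, hv, hdv⟩ := hdeg
    rw [pairs_erase R hs hi S v hv]
    have h1 := ih (S.erase v) (Finset.erase_ssubset hv)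
      (fun h => hno (EGb_mono (Finset.erase_subset v S) h))
    rw [Finset.card_erase_of_mem hv] at h1
    have h2 : 0 < S.card := Finset.card_pos.2 ⟨v, hv⟩
    obtain ⟨c, hc⟩ := Nat.exists_eq_succ_of_ne_zero h2.ne'
    rw [hc] at h1 ⊢
    rw [Nat.succ_sub_one] at h1
    rw [Nat.mul_succ]
    omega
  · push Not at hdeg
    have hb : ∃ L, HasPath R S L ∧ 1 ≤ L ∧ ¬ HasPath R S (L + 1) := by
      have h1 : HasPath R S 1 :=
        ⟨[s0], List.nodup_singleton s0, List.isChain_singleton s0, by simpa using hs0, rfl⟩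
      have hc1 : 1 ≤ S.card := EGb_card h1
      refine ⟨Nat.findGreatest (HasPath R S) S.card, Nat.findGreatest_spec hc1 h1,
        Nat.le_findGreatest hc1 h1, fun h => ?_⟩
      have h2 := EGb_card h
      exact absurd h (Nat.findGreatest_is_greatest (Nat.lt_succ_self _) h2)
    obtain ⟨L, ⟨l, hl1, hl2, hl3, hl4⟩, hL1, hL2⟩ := hb
    have hLk : L < k := by
      by_contra hcon
      exact hno (EGb_take (not_lt.1 hcon) ⟨l, hl1, hl2, hl3, hl4⟩)
    have hne : l ≠ [] := by
      rintro rfl
      simp at hl4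
      omega
    have hcl := closed_of_long R hs hi S l hl1 hl2 hl3 hne (by rw [hl4]; exact hL2)
      (fun x hx => by have := hdeg x hx; omega)
    have hTS : l.toFinset ⊆ S := fun x hx => hl3 x (List.mem_toFinset.1 hx)
    rw [pairs_split R hs S l.toFinset hTS (fun x hx y hy hxy =>
      List.mem_toFinset.2 (hcl x (List.mem_toFinset.1 hx) y hy hxy))]
    have hTc : l.toFinset.card = L := by rw [List.toFinset_card_of_nodup hl1, hl4]
    have h1 := pairs_le_sq R hi l.toFinset
    rw [hTc] at h1
    have h2 : S \ l.toFinset ⊂ S := by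
      refine Finset.sdiff_ssubset hTS ?_
      obtain ⟨x, hx⟩ := List.exists_mem_of_ne_nil l hne
      exact ⟨x, List.mem_toFinset.2 hx⟩
    have h3 := ih (S \ l.toFinset) h2 (fun h => hno (EGb_mono Finset.sdiff_subset h))
    have h4 : (S \ l.toFinset).card + L = S.card := by
      rw [← hTc]
      exact Finset.card_sdiff_add_card_eq_card hTS
    rw [← h4, Nat.mul_add]
    have h5 : L * (L - 1) ≤ (k - 2) * L := by
      rw [Nat.mul_comm]
      exact Nat.mul_le_mul_right L (by omega)
    omega

end Pool.Agent.H32.IP
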