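import Pool.Agent.H32.IP.Df

set_option autoImplicit false

namespace Pool.Agent.H32.IP

/- Proof: let `B` be the set of the elements `g` of the free group with `g.norm ≤ K` (finite: `FreeGroup.toWord` is injective
and `List.finite_length_le`). For each generator `i` the map `g ↦ of i * g` is a bijection from
`{g ∈ B | (of i * g).norm ≤ K}` onto `{g ∈ B | ((of i)⁻¹ * g).norm ≤ K}`; extend it to a permutation `τ i` of `B`
(`Equiv.extendSubtype`, `Equiv.extendSubtype_apply_of_mem`). Let `Γ = Equiv.Perm B`, `φ = FreeGroup.lift τ`. By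
induction on the list: for every list `L` of letters with `L.length ≤ K`, `φ (mk L)` maps the element `1` of `B` to
`mk L` (of norm at most `L.length`, `FreeGroup.norm_mk_le`): for `L = (i, true) :: L'` both `mk L'` and
`of i * mk L' = mk L` have norm at most `K`, and for `(i, false)` use that `τ i` maps `(of i)⁻¹ * g` to `g`. If `L` is
reduced (`FreeGroup.IsReduced`) and not empty, `mk L ≠ 1` (`FreeGroup.IsReduced.reduce_eq`), so `φ (mk L) ≠ 1`.
(`Γ` must live in `Type`; `B` is a subtype of `FreeGroup (Fin q) : Type`.) -/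

theorem finite_ball (q K : ℕ) : Finite {g : FreeGroup (Fin q) // g.norm ≤ K} := by
  have h1 : {l : List (Fin q × Bool) | l.length ≤ K}.Finite := List.finite_length_le _ _
  have h2 : Finite {l : List (Fin q × Bool) | l.length ≤ K} := h1.to_subtype
  refine Finite.of_injective
    (fun g : {g : FreeGroup (Fin q) // g.norm ≤ K} =>
      (⟨g.1.toWord, g.2⟩ : {l : List (Fin q × Bool) | l.length ≤ K})) ?_
  intro a b hab
  exact Subtype.ext (FreeGroup.toWord_injective (congrArg Subtype.val hab))

theorem exists_perm (q K : ℕ) (i : Fin q) :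
    ∃ σ : Equiv.Perm {g : FreeGroup (Fin q) // g.norm ≤ K},
      ∀ (g : FreeGroup (Fin q)) (h1 : g.norm ≤ K) (h2 : (FreeGroup.of i * g).norm ≤ K),
        σ ⟨g, h1⟩ = ⟨FreeGroup.of i * g, h2⟩ := by
  have hB := finite_ball q K
  obtain ⟨σ, hσ⟩ := Equiv.Perm.exists_extending_pair
    (α := {g : {g : FreeGroup (Fin q) // g.norm ≤ K} // (FreeGroup.of i * g.1).norm ≤ K})
    (β := {g : FreeGroup (Fin q) // g.norm ≤ K})
    (fun g => g.1) (fun g => ⟨FreeGroup.of i * g.1.1, g.2⟩) Subtype.val_injective (by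
      intro a b hab
      have h1 : FreeGroup.of i * a.1.1 = FreeGroup.of i * b.1.1 := congrArg Subtype.val hab
      exact Subtype.ext (Subtype.ext (mul_left_cancel h1)))
  exact ⟨σ, fun g h1 h2 => hσ ⟨⟨g, h1⟩, h2⟩⟩

theorem exists_good (q K : ℕ) : ∃ (Γ : Type) (_ : Group Γ) (_ : Fintype Γ)
    (φ : FreeGroup (Fin q) →* Γ), Good K φ := by
  classical
  have hB := finite_ball q K
  choose τ hτ using exists_perm q K
  let φ : FreeGroup (Fin q) →* Equiv.Perm {g : FreeGroup (Fin q) // g.norm ≤ K} :=
    FreeGroup.lift τ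
  have hof : ∀ i, φ (FreeGroup.of i) = τ i := fun i => FreeGroup.lift_apply_of
  have h1K : (1 : FreeGroup (Fin q)).norm ≤ K := by
    rw [FreeGroup.norm_one]
    exact Nat.zero_le _
  have key : ∀ L : List (Fin q × Bool), L.length ≤ K →
      (φ (FreeGroup.mk L) ⟨1, h1K⟩).1 = FreeGroup.mk L := by
    intro L
    induction L with
    | nil =>
      intro _
      have e1 : (FreeGroup.mk [] : FreeGroup (Fin q)) = 1 := FreeGroup.one_eq_mk.symm
      rw [e1, map_one]
      rfl
    | cons a L ih =>
      obtain ⟨i, b⟩ := a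
      intro h
      have h' : L.length ≤ K := by
        rw [List.length_cons] at h
        omega
      have h2 : φ (FreeGroup.mk L) ⟨1, h1K⟩
          = ⟨FreeGroup.mk L, FreeGroup.norm_mk_le.trans h'⟩ := Subtype.ext (ih h')
      cases b with
      | true =>
        have e1 : FreeGroup.mk ((i, true) :: L) = FreeGroup.of i * FreeGroup.mk L := rfl
        have e2 : (FreeGroup.of i * FreeGroup.mk L).norm ≤ K := FreeGroup.norm_mk_le.trans h
        have e3 := hτ i (FreeGroup.mk L) (FreeGroup.norm_mk_le.trans h') e2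
        rw [e1, map_mul, Equiv.Perm.mul_apply, h2, hof, e3]
      | false =>
        have e1 : FreeGroup.mk ((i, false) :: L) = (FreeGroup.of i)⁻¹ * FreeGroup.mk L := rfl
        have e2 : ((FreeGroup.of i)⁻¹ * FreeGroup.mk L).norm ≤ K := FreeGroup.norm_mk_le.trans h
        have e4 : FreeGroup.of i * ((FreeGroup.of i)⁻¹ * FreeGroup.mk L) = FreeGroup.mk L :=
          mul_inv_cancel_left _ _
        have e3 := hτ i ((FreeGroup.of i)⁻¹ * FreeGroup.mk L) e2 (by
          rw [e4]
          exact FreeGroup.norm_mk_le.trans h')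
        have e6 : (τ i)⁻¹ ⟨FreeGroup.mk L, FreeGroup.norm_mk_le.trans h'⟩
            = ⟨(FreeGroup.of i)⁻¹ * FreeGroup.mk L, e2⟩ := by
          rw [Equiv.Perm.inv_eq_iff_eq, e3]
          exact Subtype.ext e4.symm
        rw [e1, map_mul, Equiv.Perm.mul_apply, h2, map_inv, hof, e6]
  refine ⟨Equiv.Perm {g : FreeGroup (Fin q) // g.norm ≤ K}, inferInstance, Fintype.ofFinite _, φ,
    fun L hL hne hlen h1 => hne ?_⟩
  have h3 := key L hlen
  rw [h1, Equiv.Perm.one_apply] at h3
  have h4 := congrArg FreeGroup.toWord h3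
  rw [FreeGroup.toWord_one, FreeGroup.toWord_mk] at h4
  have h5 : FreeGroup.IsReduced L := hL
  rw [h5.reduce_eq] at h4
  exact h4.symm

end Pool.Agent.H32.IP
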