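import Pool.Agent.H32.IP.Df

set_option autoImplicit false

namespace Pool.Agent.H32.IP

/- (1) transport `G` and the colourings along `Fintype.equivFin V`. (2) `Arrows` depends only on the isomorphism class of
`H`. (3) the path with fewer vertices is contained in the longer one (`Fin.castLE`). -/

theorem arrows_congr {V V' W : Type} (e : V ≃ V') (G : SimpleGraph V) (G' : SimpleGraph V')
    (hG : ∀ x y, G.Adj x y ↔ G'.Adj (e x) (e y)) (H : SimpleGraph W) (q : ℕ)
    (h : Arrows G H q) : Arrows G' H q := by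
  intro c hc
  obtain ⟨f, hf, hadj, i, hi⟩ := h (fun a b => c (e a) (e b)) (fun a b => hc _ _)
  exact ⟨fun w => e (f w), fun a b hab => hf (e.injective hab),
    fun u v huv => (hG _ _).1 (hadj u v huv), i, fun u v huv => hi u v huv⟩

theorem equivalent_fintype {W W' : Type} (q : ℕ) (H : SimpleGraph W) (H' : SimpleGraph W')
    (h : Equivalent q H H') (V : Type) [Fintype V] (G : SimpleGraph V) :
    Arrows G H q ↔ Arrows G H' q := by
  let e : V ≃ Fin (Fintype.card V) := Fintype.equivFin V
  let G' : SimpleGraph (Fin (Fintype.card V)) := G.comap e.symm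
  have h1 : ∀ x y, G.Adj x y ↔ G'.Adj (e x) (e y) := fun x y => by
    show G.Adj x y ↔ G.Adj (e.symm (e x)) (e.symm (e y))
    rw [e.symm_apply_apply, e.symm_apply_apply]
  have h2 : ∀ x y, G'.Adj x y ↔ G.Adj (e.symm x) (e.symm y) := fun x y => Iff.rfl
  constructor
  · intro hA
    exact arrows_congr e.symm G' G h2 H' q ((h _ G').1 (arrows_congr e G G' h1 H q hA))
  · intro hA
    exact arrows_congr e.symm G' G h2 H q ((h _ G').2 (arrows_congr e G G' h1 H' q hA))

theorem arrows_iso {V W W' : Type} (G : SimpleGraph V) (H : SimpleGraph W) (H' : SimpleGraph W')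
    (e : H ≃g H') (q : ℕ) (h : Arrows G H q) : Arrows G H' q := by
  intro c hc
  obtain ⟨f, hf, hadj, i, hi⟩ := h c hc
  have h1 : ∀ u v, H'.Adj u v → H.Adj (e.symm u) (e.symm v) := fun u v huv =>
    e.symm.map_adj_iff.2 huv
  exact ⟨fun w => f (e.symm w), fun a b hab => e.symm.injective (hf hab),
    fun u v huv => hadj _ _ (h1 u v huv), i, fun u v huv => hi _ _ (h1 u v huv)⟩

theorem arrows_mono {V : Type} (G : SimpleGraph V) (a b q : ℕ) (hab : a ≤ b)
    (h : Arrows G (SimpleGraph.pathGraph b) q) : Arrows G (SimpleGraph.pathGraph a) q := by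
  intro c hc
  obtain ⟨f, hf, hadj, i, hi⟩ := h c hc
  have h1 : ∀ u v, (SimpleGraph.pathGraph a).Adj u v →
      (SimpleGraph.pathGraph b).Adj (Fin.castLE hab u) (Fin.castLE hab v) := by
    intro u v huv
    rw [SimpleGraph.pathGraph_adj] at huv ⊢
    exact huv
  exact ⟨fun w => f (Fin.castLE hab w), fun x y hxy => Fin.castLE_injective hab (hf hxy),
    fun u v huv => hadj _ _ (h1 u v huv), i, fun u v huv => hi _ _ (h1 u v huv)⟩

end Pool.Agent.H32.IP
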