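import Pool.Agent.H32.IP.Pr

set_option autoImplicit false

namespace Pool.Agent.H32.IP

/- A graph without path on `k` vertices and without cycle on fewer than `k` vertices is a forest. Proof: induction on
`|S|`. Let `l` be a longest path in `S` (nodup chain of maximal length), `1 ≤ l.length ≤ k - 1`, and let `v` be its
head. A neighbour `y ∈ S` of `v` lies in `l` (else `y :: l` is longer); it is the second entry, since if it were
`l[j]`, `j ≥ 2`, the first `j + 1` entries of `l` contradict `hcyc`. So `deg R S v ≤ 1`; use `pairs_erase` and the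
induction hypothesis for `S.erase v` (if it is empty, `pairs R S = 0`). -/

theorem Fc_long {V : Type} (R : V → V → Prop) (k : ℕ) (S : Finset V) (hS : S.Nonempty)
    (hno : ¬ HasPath R S k) :
    ∃ m : ℕ, 1 ≤ m ∧ m < k ∧ HasPath R S m ∧ ¬ HasPath R S (m + 1) := by
  classical
  have hex : ∃ n, ¬ HasPath R S n := ⟨k, hno⟩
  obtain ⟨x, hx⟩ := hS
  have h0 : HasPath R S 0 := ⟨[], List.nodup_nil, List.isChain_nil, by simp, rfl⟩
  have h1 : HasPath R S 1 := ⟨[x], by simp, List.isChain_singleton x, by simpa using hx, rfl⟩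
  obtain ⟨n, hn⟩ : ∃ n, n = Nat.find hex := ⟨_, rfl⟩
  have hnn : ¬ HasPath R S n := by
    rw [hn]
    exact Nat.find_spec hex
  have hnk : n ≤ k := by
    rw [hn]
    exact Nat.find_min' hex hno
  have hmin : ∀ m, m < n → HasPath R S m := by
    intro m hm
    rw [hn] at hm
    exact not_not.1 (Nat.find_min hex hm)
  have hn2 : 2 ≤ n := by
    by_contra h
    have : n = 0 ∨ n = 1 := by omega
    rcases this with h | h
    · rw [h] at hnn
      exact hnn h0
    · rw [h] at hnn
      exact hnn h1
  refine ⟨n - 1, by omega, by omega, hmin _ (by omega), ?_⟩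
  rw [Nat.sub_add_cancel (by omega)]
  exact hnn

theorem Fc_last {V : Type} (l : List V) (y : V) : y ∈ (l ++ [y]).getLast? := by
  rw [List.getLast?_append]
  simp

theorem Fc_deg {V : Type} (R : V → V → Prop) (hs : ∀ x y, R x y → R y x)
    (hi : ∀ x, ¬ R x x) (k : ℕ)
    (hcyc : ∀ l : List V, l.Nodup → l.IsChain R → 3 ≤ l.length → l.length < k →
      ∀ a ∈ l.head?, ∀ b ∈ l.getLast?, ¬ R a b)
    (S : Finset V) (hS : S.Nonempty) (hno : ¬ HasPath R S k) :
    ∃ v ∈ S, deg R S v ≤ 1 := by
  classical
  obtain ⟨m, hm1, hmk, ⟨l, hnd, hch, hmem, hlen⟩, hno'⟩ := Fc_long R k S hS hno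
  rcases l with _ | ⟨v, t⟩
  · rw [List.length_nil] at hlen
    omega
  refine ⟨v, hmem v (by simp), ?_⟩
  have key : ∀ y ∈ S, R v y → t.head? = some y := by
    intro y hy hvy
    have hyt : y ∈ v :: t := by
      by_contra hyt
      apply hno'
      refine ⟨y :: v :: t, List.nodup_cons.2 ⟨hyt, hnd⟩, ?_, ?_, ?_⟩
      · rw [List.isChain_cons_cons]
        exact ⟨hs _ _ hvy, hch⟩
      · intro x hx
        rcases List.mem_cons.1 hx with rfl | hx
        · exact hy
        · exact hmem x hx
      · rw [List.length_cons, hlen]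
    rcases List.mem_cons.1 hyt with rfl | hyt
    · exact absurd hvy (hi _)
    obtain ⟨l₁, l₂, ht⟩ := List.append_of_mem hyt
    rcases l₁ with _ | ⟨a, l₁⟩
    · rw [ht]
      simp
    · exfalso
      have e : v :: t = (v :: a :: l₁ ++ [y]) ++ l₂ := by
        rw [ht]
        simp
      rw [e] at hnd hch hlen
      have hnd' : (v :: a :: l₁ ++ [y]).Nodup := List.Nodup.of_append_left hnd
      have hch' : (v :: a :: l₁ ++ [y]).IsChain R := hch.left_of_append
      have hl1 : 3 ≤ (v :: a :: l₁ ++ [y]).length := by simp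
      have hl2 : (v :: a :: l₁ ++ [y]).length < k := by
        rw [List.length_append] at hlen
        omega
      exact hcyc _ hnd' hch' hl1 hl2 v (by simp) y (Fc_last (v :: a :: l₁) y) hvy
  unfold deg
  rw [Finset.card_le_one]
  intro y hy z hz
  rw [Finset.mem_filter] at hy hz
  have e1 := key y hy.1 hy.2
  have e2 := key z hz.1 hz.2
  rw [e1] at e2
  exact Option.some_injective _ e2

theorem pairs_forest {V : Type} (R : V → V → Prop) (hs : ∀ x y, R x y → R y x)
    (hi : ∀ x, ¬ R x x) (k : ℕ)
    (hcyc : ∀ l : List V, l.Nodup → l.IsChain R → 3 ≤ l.length → l.length < k →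
      ∀ a ∈ l.head?, ∀ b ∈ l.getLast?, ¬ R a b)
    (S : Finset V) (hS : S.Nonempty) (hno : ¬ HasPath R S k) :
    pairs R S + 2 ≤ 2 * S.card := by
  classical
  induction S using Finset.strongInduction with
  | H S ih =>
    obtain ⟨v, hv, hdeg⟩ := Fc_deg R hs hi k hcyc S hS hno
    have hcard := Finset.card_erase_add_one hv
    by_cases hE : (S.erase v).Nonempty
    · have h1 := ih (S.erase v) (Finset.erase_ssubset hv) hE (fun ⟨l, h1, h2, h3, h4⟩ =>
        hno ⟨l, h1, h2, fun x hx => Finset.mem_of_mem_erase (h3 x hx), h4⟩)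
      have h2 := pairs_erase R hs hi S v hv
      omega
    · rw [Finset.not_nonempty_iff_eq_empty] at hE
      rw [hE, Finset.card_empty] at hcard
      have h2 := pairs_le_sq R hi S
      rw [← hcard] at h2 ⊢
      simp at h2 ⊢
      exact h2

end Pool.Agent.H32.IP
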