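import Pool.Agent.H32.IP.Df

set_option autoImplicit false

namespace Pool.Agent.H32.IP

/- Proof: colour the edges at a hub vertex `(j, s)` of group `j` with colour `j.succ`, all other pairs with colour `0`.
A path with `k + 1` vertices of colour `0` (it has at least one edge, `k ≥ 1`): all its edges join two vertices of one
copy, so by induction along the path all its vertices are `inr (n, x)` with the same `n`, an injection of `Fin (k + 1)`
into `Fin k`: contradiction. A path with `k + 1` vertices of colour `j.succ`: for `0 ≤ s ≤ (k - 1) / 2` one of its vertices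
`2 s`, `2 s + 1` (note `2 s + 1 ≤ k`) is a hub vertex of group `j`: an injection of `Fin ((k - 1) / 2 + 1)` into
`Fin ((k - 1) / 2)`: contradiction. (The edges of colour `j.succ` contain a hub vertex of group `j`.) -/

/-- the colouring: the edges at a hub vertex of group `j` have colour `j.succ`, all other pairs colour `0` -/
def gcol (r t N k : ℕ) (x y : (Fin r × Fin t) ⊕ (Fin N × Fin k)) : Fin (r + 1) :=
  match x, y with
  | Sum.inl _, Sum.inl _ => 0
  | Sum.inl a, Sum.inr _ => a.1.succ
  | Sum.inr _, Sum.inl b => b.1.succ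
  | Sum.inr _, Sum.inr _ => 0

theorem gcol_symm (r t N k : ℕ) (x y : (Fin r × Fin t) ⊕ (Fin N × Fin k)) :
    gcol r t N k x y = gcol r t N k y x := by
  rcases x with x | x <;> rcases y with y | y <;> rfl

theorem gcol_zero {r t N k : ℕ} {x y : (Fin r × Fin t) ⊕ (Fin N × Fin k)}
    (h1 : (gad r t N k).Adj x y) (h2 : gcol r t N k x y = 0) :
    ∃ n a b, x = Sum.inr (n, a) ∧ y = Sum.inr (n, b) := by
  rcases x with x | x <;> rcases y with y | y
  · exact absurd h1 id
  · exact absurd h2 (Fin.succ_ne_zero _)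
  · exact absurd h2 (Fin.succ_ne_zero _)
  · obtain ⟨n, a⟩ := x
    obtain ⟨n', b⟩ := y
    have h3 : n = n' := h1.1
    exact ⟨n, a, b, rfl, by rw [h3]⟩

theorem gcol_succ {r t N k : ℕ} {x y : (Fin r × Fin t) ⊕ (Fin N × Fin k)} {j : Fin r}
    (h1 : (gad r t N k).Adj x y) (h2 : gcol r t N k x y = j.succ) :
    (∃ s, x = Sum.inl (j, s)) ∨ ∃ s, y = Sum.inl (j, s) := by
  rcases x with x | x <;> rcases y with y | y
  · exact absurd h1 id
  · obtain ⟨a, b⟩ := x
    have h3 : a = j := Fin.succ_injective _ h2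
    exact Or.inl ⟨b, by rw [h3]⟩
  · obtain ⟨a, b⟩ := y
    have h3 : a = j := Fin.succ_injective _ h2
    exact Or.inr ⟨b, by rw [h3]⟩
  · exact absurd h2.symm (Fin.succ_ne_zero _)

theorem gad_not (r k N : ℕ) (hk : 1 ≤ k) :
    ¬ Arrows (gad r ((k - 1) / 2) N k) (SimpleGraph.pathGraph (k + 1)) (r + 1) := by
  intro hA
  obtain ⟨f, hinj, hhom, i, hi⟩ := hA (gcol r ((k - 1) / 2) N k) (gcol_symm r ((k - 1) / 2) N k)
  have hadj : ∀ (s : ℕ) (h1 : s < k + 1) (h2 : s + 1 < k + 1),
      (SimpleGraph.pathGraph (k + 1)).Adj ⟨s, h1⟩ ⟨s + 1, h2⟩ := by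
    intro s h1 h2
    rw [SimpleGraph.pathGraph_adj]
    exact Or.inl rfl
  refine Fin.cases ?_ ?_ i hi
  · intro h0
    -- colour 0
    have hstep : ∀ (s : ℕ) (h1 : s < k + 1) (h2 : s + 1 < k + 1),
        ∃ n x y, f ⟨s, h1⟩ = Sum.inr (n, x) ∧ f ⟨s + 1, h2⟩ = Sum.inr (n, y) := by
      intro s h1 h2
      have a1 := hhom _ _ (hadj s h1 h2)
      have a2 := h0 _ _ (hadj s h1 h2)
      exact gcol_zero a1 a2
    obtain ⟨n, x0, y0, hx0, hy0⟩ := hstep 0 (by omega) (by omega)
    have hall : ∀ (s : ℕ) (h1 : s < k + 1), ∃ x, f ⟨s, h1⟩ = Sum.inr (n, x) := by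
      intro s
      induction s with
      | zero => intro h1; exact ⟨x0, hx0⟩
      | succ s ih =>
        intro h1
        obtain ⟨x, hx⟩ := ih (by omega)
        obtain ⟨n', x', y', h3, h4⟩ := hstep s (by omega) h1
        rw [hx] at h3
        have h5 : (n, x) = (n', x') := Sum.inr.inj h3
        have h6 : n = n' := congrArg Prod.fst h5
        exact ⟨y', by rw [h4, h6]⟩
    choose g hg using hall
    have hg_inj : Function.Injective (fun s : Fin (k + 1) => g s.1 s.2) := by
      intro a b hab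
      have hab' : g a.1 a.2 = g b.1 b.2 := hab
      apply hinj
      have e1 := hg a.1 a.2
      have e2 := hg b.1 b.2
      rw [hab'] at e1
      exact e1.trans e2.symm
    have hcard := Fintype.card_le_of_injective _ hg_inj
    rw [Fintype.card_fin, Fintype.card_fin] at hcard
    omega
  · intro j hj
    have hstep : ∀ s : Fin ((k - 1) / 2 + 1), ∃ t : Fin ((k - 1) / 2), ∃ m : Fin (k + 1),
        f m = Sum.inl (j, t) ∧ (m.1 = 2 * s.1 ∨ m.1 = 2 * s.1 + 1) := by
      intro s
      have hs := s.2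
      have h1 : 2 * s.1 < k + 1 := by omega
      have h2 : 2 * s.1 + 1 < k + 1 := by omega
      have a1 := hhom _ _ (hadj (2 * s.1) h1 h2)
      have a2 := hj _ _ (hadj (2 * s.1) h1 h2)
      rcases gcol_succ a1 a2 with ⟨t, ht⟩ | ⟨t, ht⟩
      · exact ⟨t, ⟨2 * s.1, h1⟩, ht, Or.inl rfl⟩
      · exact ⟨t, ⟨2 * s.1 + 1, h2⟩, ht, Or.inr rfl⟩
    choose t m ht hm using hstep
    have ht_inj : Function.Injective t := by
      intro a b hab
      have e1 := ht a
      have e2 := ht b
      rw [hab] at e1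
      have e3 : m a = m b := hinj (e1.trans e2.symm)
      have e4 : (m a).1 = (m b).1 := congrArg Fin.val e3
      apply Fin.ext
      have ha := hm a
      have hb := hm b
      omega
    have hcard := Fintype.card_le_of_injective _ ht_inj
    rw [Fintype.card_fin, Fintype.card_fin] at hcard
    omega

end Pool.Agent.H32.IP
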