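import Pool.Agent.H32.IP.Df

set_option autoImplicit false

namespace Pool.Agent.H32.IP

/- Proof: count the ordered pairs by the types of the two entries: hub - bottom, bottom - hub: `r t N k` each;
bottom - bottom: `N` copies with `k (k - 1)` ordered pairs. -/

theorem pairs_gad (r t N k : ℕ) :
    pairs (gad r t N k).Adj Finset.univ = 2 * (r * t * (N * k)) + N * (k * (k - 1)) := by
  classical
  have h1 : ∀ a b : Fin r × Fin t,
      (if (gad r t N k).Adj (Sum.inl a) (Sum.inl b) then 1 else 0) = 0 :=
    fun a b => if_neg (fun h => h)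
  have h2 : ∀ (a : Fin r × Fin t) (b : Fin N × Fin k),
      (if (gad r t N k).Adj (Sum.inl a) (Sum.inr b) then 1 else 0) = 1 :=
    fun a b => if_pos trivial
  have h3 : ∀ (a : Fin N × Fin k) (b : Fin r × Fin t),
      (if (gad r t N k).Adj (Sum.inr a) (Sum.inl b) then 1 else 0) = 1 :=
    fun a b => if_pos trivial
  have h4 : ∀ a : Fin N × Fin k,
      ∑ b : Fin N × Fin k, (if (gad r t N k).Adj (Sum.inr a) (Sum.inr b) then 1 else 0) = k - 1 := by
    intro a
    rw [← Finset.card_filter]
    have h5 : Finset.univ.filter (fun b : Fin N × Fin k => (gad r t N k).Adj (Sum.inr a) (Sum.inr b)) =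
        {a.1} ×ˢ (Finset.univ.erase a.2) := by
      ext b
      simp only [Finset.mem_filter, Finset.mem_univ, true_and, Finset.mem_product,
        Finset.mem_singleton, Finset.mem_erase, and_true]
      constructor
      · rintro ⟨h6, h7⟩
        exact ⟨h6.symm, fun h => h7 h.symm⟩
      · rintro ⟨h6, h7⟩
        exact ⟨h6.symm, fun h => h7 h.symm⟩
    rw [h5, Finset.card_product, Finset.card_singleton, one_mul,
      Finset.card_erase_of_mem (Finset.mem_univ _), Finset.card_univ, Fintype.card_fin]
  unfold pairs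
  rw [Finset.card_filter, Finset.sum_product]
  simp only [Fintype.sum_sum_type]
  have e1 : ∀ a : Fin r × Fin t,
      ((∑ b : Fin r × Fin t, if (gad r t N k).Adj (Sum.inl a) (Sum.inl b) then 1 else 0) +
        ∑ b : Fin N × Fin k, if (gad r t N k).Adj (Sum.inl a) (Sum.inr b) then 1 else 0) = N * k := by
    intro a
    rw [Finset.sum_congr rfl fun b _ => h1 a b, Finset.sum_congr rfl fun b _ => h2 a b]
    simp
  have e2 : ∀ a : Fin N × Fin k,
      ((∑ b : Fin r × Fin t, if (gad r t N k).Adj (Sum.inr a) (Sum.inl b) then 1 else 0) +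
        ∑ b : Fin N × Fin k, if (gad r t N k).Adj (Sum.inr a) (Sum.inr b) then 1 else 0) =
        r * t + (k - 1) := by
    intro a
    rw [Finset.sum_congr rfl fun b _ => h3 a b, h4 a]
    simp
  rw [Finset.sum_congr rfl fun a _ => e1 a, Finset.sum_congr rfl fun a _ => e2 a]
  simp only [Finset.sum_const, Finset.card_univ, Fintype.card_prod, Fintype.card_fin, smul_eq_mul]
  ring

end Pool.Agent.H32.IP
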