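import Pool.Agent.H32.IP.EGb
import Pool.Agent.H32.IP.Cv
import Pool.Agent.H32.IP.GDa
import Pool.Agent.H32.IP.GDc

set_option autoImplicit false

namespace Pool.Agent.H32.IP

/- Proof: for `k = 1` take `N = 1` and map the single vertex anywhere. For `k ≥ 2` put `t = (k - 1) / 2`,
`h = r t` and `N = (r + 1) k h + 1`. By `arrows_of_count` with `m = (k - 2) (h + N k)` and `pairs_le` it is enough that
`(r + 1) (k - 2) (h + N k) < 2 h N k + N k (k - 1)`. As `2 t ≥ k - 2`, the right side is at least
`N k (r (k - 2) + k - 1) = N k ((r + 1) (k - 2) + 1)`, and `N k > (r + 1) (k - 2) h`. -/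

theorem gad_arrows (r k : ℕ) (hk : 1 ≤ k) :
    ∃ N : ℕ, Arrows (gad r ((k - 1) / 2) N k) (SimpleGraph.pathGraph k) (r + 1) := by
  rcases Nat.lt_or_ge k 2 with h1 | h2
  · obtain rfl : k = 1 := by omega
    refine ⟨1, fun c _ => ⟨fun _ => Sum.inr (0, 0), fun a b _ => Subsingleton.elim a b, ?_, 0, ?_⟩⟩
    · intro u v huv
      rw [Subsingleton.elim u v] at huv
      exact absurd huv (SimpleGraph.irrefl _)
    · intro u v huv
      rw [Subsingleton.elim u v] at huv
      exact absurd huv (SimpleGraph.irrefl _)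
  · obtain ⟨s, rfl⟩ : ∃ s, k = s + 2 := ⟨k - 2, by omega⟩
    set t := (s + 2 - 1) / 2 with ht
    have hts : s ≤ 2 * t := by omega
    refine ⟨(r + 1) * (s + 2) * (r * t) + 1, ?_⟩
    set N := (r + 1) * (s + 2) * (r * t) + 1 with hN
    apply arrows_of_count _ (s + 2) (r + 1) (s * (r * t + N * (s + 2)))
    · intro R hs hi _ hno
      have h := pairs_le R hs hi (s + 2) (by omega) Finset.univ hno
      have hcard : (Finset.univ : Finset ((Fin r × Fin t) ⊕ (Fin N × Fin (s + 2)))).card
          = r * t + N * (s + 2) := by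
        simp [Finset.card_univ, Fintype.card_sum, Fintype.card_prod]
      rw [hcard] at h
      simpa using h
    · rw [pairs_gad]
      have e1 : s + 2 - 1 = s + 1 := by omega
      rw [e1]
      have h3 : (r + 1) * s * (r * t) < N := by
        rw [hN]
        have : (r + 1) * s * (r * t) ≤ (r + 1) * (s + 2) * (r * t) :=
          Nat.mul_le_mul_right _ (Nat.mul_le_mul_left _ (by omega))
        omega
      have h4 : N ≤ N * (s + 2) := Nat.le_mul_of_pos_right _ (by omega)
      have h5 : r * s * (N * (s + 2)) ≤ 2 * (r * t * (N * (s + 2))) := by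
        have : r * s ≤ 2 * (r * t) := by nlinarith
        calc r * s * (N * (s + 2)) ≤ 2 * (r * t) * (N * (s + 2)) := Nat.mul_le_mul_right _ this
          _ = 2 * (r * t * (N * (s + 2))) := by ring
      have h6 : (r + 1) * (s * (r * t + N * (s + 2)))
          = (r + 1) * s * (r * t) + r * s * (N * (s + 2)) + s * (N * (s + 2)) := by ring
      have h7 : N * ((s + 2) * (s + 1)) = s * (N * (s + 2)) + N * (s + 2) := by ring
      rw [h6, h7]
      omega

end Pool.Agent.H32.IP
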