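import Pool.Agent.H32.IP.Df

set_option autoImplicit false

namespace Pool.Agent.H32.IP

/- Proof: if `s < s'` are values of `j` and `s ≤ m < s'`, then there are adjacent `u, v` with `j u = m`, `j v = m + 1`:
a walk from the vertex with value `s` to the vertex with value `s'` must cross from `≤ m` to `≥ m + 1`
(connectedness; every step changes `j` by one). So the values of `j` are exactly `a, a + 1, ..., a + |W| - 1` (`a` the
least one), and `H.Adj u v ↔ j u + 1 = j v ∨ j v + 1 = j u` (for `←`: with `m = j u` there are adjacent `u', v'` with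
`j u' = j u`, `j v' = j v`, and `j` is injective). So `w ↦ j w - a` is an isomorphism onto the path graph on
`Fin (Fintype.card W)`. -/

theorem walk_cross {W : Type} (H : SimpleGraph W) (j : W → ℕ)
    (ha : ∀ u v : W, H.Adj u v → j u + 1 = j v ∨ j v + 1 = j u) {u v : W} (p : H.Walk u v) (m : ℕ)
    (h1 : j u ≤ m) (h2 : m < j v) : ∃ x y, H.Adj x y ∧ j x = m ∧ j y = m + 1 := by
  induction p with
  | nil => omega
  | @cons u w v h p ih =>
    by_cases h3 : j w ≤ m
    · exact ih h3 h2
    · have h4 := ha u w h
      exact ⟨u, w, h, by omega, by omega⟩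

theorem path_iso {W : Type} [Fintype W] (H : SimpleGraph W) (hc : H.Connected) (j : W → ℕ)
    (hj : Function.Injective j) (ha : ∀ u v : W, H.Adj u v → j u + 1 = j v ∨ j v + 1 = j u) :
    Nonempty (SimpleGraph.pathGraph (Fintype.card W) ≃g H) := by
  classical
  have hne : Nonempty W := hc.nonempty
  have hcross : ∀ (u v : W) (m : ℕ), j u ≤ m → m < j v → ∃ x y, H.Adj x y ∧ j x = m ∧ j y = m + 1 := by
    intro u v m h1 h2
    obtain ⟨p⟩ := hc.preconnected u v
    exact walk_cross H j ha p m h1 h2
  obtain ⟨w0, hw0⟩ := Finite.exists_min j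
  have hlt : ∀ w, j w - j w0 < Fintype.card W := by
    intro w
    have h1 : Finset.Icc (j w0) (j w) ⊆ Finset.univ.image j := by
      intro m hm
      rw [Finset.mem_Icc] at hm
      rw [Finset.mem_image]
      rcases Nat.lt_or_ge m (j w) with h2 | h2
      · obtain ⟨x, y, -, hx, -⟩ := hcross w0 w m hm.1 h2
        exact ⟨x, Finset.mem_univ _, hx⟩
      · exact ⟨w, Finset.mem_univ _, by omega⟩
    have h2 := Finset.card_le_card h1
    rw [Nat.card_Icc, Finset.card_image_of_injective _ hj, Finset.card_univ] at h2
    have h3 := hw0 w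
    omega
  let f : W → Fin (Fintype.card W) := fun w => ⟨j w - j w0, hlt w⟩
  have hf : Function.Injective f := by
    intro u v h
    have h1 : j u - j w0 = j v - j w0 := congrArg Fin.val h
    have h2 := hw0 u
    have h3 := hw0 v
    exact hj (by omega)
  have hb : Function.Bijective f :=
    (Fintype.bijective_iff_injective_and_card f).2 ⟨hf, (Fintype.card_fin _).symm⟩
  have hstep : ∀ u v : W, j u + 1 = j v → H.Adj u v := by
    intro u v h
    obtain ⟨x, y, hxy, hx, hy⟩ := hcross u v (j u) le_rfl (by omega)
    have h1 : x = u := hj hx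
    have h2 : y = v := hj (hy.trans h)
    rwa [h1, h2] at hxy
  refine ⟨SimpleGraph.Iso.symm ⟨Equiv.ofBijective f hb, ?_⟩⟩
  intro u v
  rw [SimpleGraph.pathGraph_adj]
  have h2 := hw0 u
  have h3 := hw0 v
  change j u - j w0 + 1 = j v - j w0 ∨ j v - j w0 + 1 = j u - j w0 ↔ H.Adj u v
  constructor
  · rintro (h | h)
    · exact hstep u v (by omega)
    · exact (hstep v u (by omega)).symm
  · intro h
    have h4 := ha u v h
    omega

end Pool.Agent.H32.IP
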