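import Pool.Agent.H32.IP.GDb
import Pool.Agent.H32.IP.FG
import Pool.Agent.H32.IP.CYc
import Pool.Agent.H32.IP.CYd
import Pool.Agent.H32.IP.PI
import Pool.Agent.H32.IP.FT

set_option autoImplicit false

namespace Pool.Agent.H32.IP

/- Proof: let `K = max (k + 1) (|W| + 2)`, `φ` from `exists_good`, `G` the Cayley graph (`ca_symm`, `ca_irrefl`).
`cay_arrows` gives `Arrows G (pathGraph (k + 1)) q`, so `Arrows G H q`, so by `cay_path` and `path_iso` `H` is
isomorphic to `pathGraph m`, `m = |W| ≥ 1`. If `m ≠ k + 1`, let `a < b` be the two numbers; `gad_arrows`, `gad_not` for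
`a` (`q = r + 1`) give a graph that arrows `pathGraph a` but not `pathGraph (a + 1)`, hence not `pathGraph b`
(`arrows_mono`): contradiction to the equivalence (`equivalent_fintype`, `arrows_iso`). -/

theorem separate (a b q : ℕ) (ha : 1 ≤ a) (hab : a < b) (hq : 1 ≤ q) :
    ∃ (V : Type) (_ : Fintype V) (G : SimpleGraph V),
      Arrows G (SimpleGraph.pathGraph a) q ∧ ¬ Arrows G (SimpleGraph.pathGraph b) q := by
  obtain ⟨r, rfl⟩ : ∃ r, q = r + 1 := ⟨q - 1, by omega⟩
  obtain ⟨N, hN⟩ := gad_arrows r a ha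
  refine ⟨_, inferInstance, gad r ((a - 1) / 2) N a, hN, fun h => ?_⟩
  exact gad_not r a N ha (arrows_mono _ (a + 1) b (r + 1) (by omega) h)

theorem isolated (k q : ℕ) (hq : 1 ≤ q) (W : Type) [Fintype W] (H : SimpleGraph W)
    (hc : H.Connected) (h : Equivalent q (SimpleGraph.pathGraph (k + 1)) H) :
    Nonempty (SimpleGraph.pathGraph (k + 1) ≃g H) := by
  obtain ⟨Γ, _, _, φ, hφ⟩ := exists_good q (max (k + 1) (Fintype.card W + 2))
  have hK : 2 ≤ max (k + 1) (Fintype.card W + 2) := le_max_of_le_right (by omega)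
  let G : SimpleGraph Γ := ⟨CA φ, ⟨fun x y hxy => ca_symm φ x y hxy⟩,
    ⟨fun x hx => ca_irrefl _ (by omega) φ hφ x hx⟩⟩
  have hG : ∀ x y, G.Adj x y ↔ CA φ x y := fun _ _ => Iff.rfl
  have h1 : Arrows G (SimpleGraph.pathGraph (k + 1)) q :=
    cay_arrows hq _ (k + 1) hK (le_max_left _ _) φ hφ G hG
  have h2 : Arrows G H q := (equivalent_fintype q _ _ h Γ G).1 h1
  obtain ⟨j, hj, hja⟩ := cay_path hq _ hK φ hφ G hG H hc
    (lt_of_lt_of_le (by omega) (le_max_right _ _)) h2
  obtain ⟨e⟩ := path_iso H hc j hj hja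
  have hW : 1 ≤ Fintype.card W := by
    haveI := hc.nonempty
    exact Fintype.card_pos
  have hkey : k + 1 = Fintype.card W := by
    rcases lt_trichotomy (k + 1) (Fintype.card W) with hlt | heq | hgt
    · exfalso
      obtain ⟨V, _, G', hA, hB⟩ := separate (k + 1) (Fintype.card W) q (by omega) hlt hq
      exact hB (arrows_iso G' _ _ e.symm q ((equivalent_fintype q _ _ h V G').1 hA))
    · exact heq
    · exfalso
      obtain ⟨V, _, G', hA, hB⟩ := separate (Fintype.card W) (k + 1) q hW hgt hq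
      exact hB ((equivalent_fintype q _ _ h V G').2 (arrows_iso G' _ _ e q hA))
  rw [hkey]
  exact ⟨e⟩

end Pool.Agent.H32.IP
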