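import Pool.Agent.H32.IP.Df

set_option autoImplicit false

namespace Pool.Agent.H32.IP

/- Proofs: elementary counting. `pairs R S` counts ordered pairs. (1) the pairs with first or second entry `v` are
`(v, y)` and `(y, v)` with `y` a neighbour of `v` (never both `v`, as `R` is irreflexive). (2) if no element of
`T ⊆ S` has a neighbour in `S \ T`, the pairs of `S` are those of `T` and those of `S \ T`. (3) at most
`|T| (|T| - 1)` ordered pairs of different elements. -/

open Classical in
theorem Pr_pairs {V : Type} (R : V → V → Prop) (S : Finset V) :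
    pairs R S = ∑ x ∈ S, ∑ y ∈ S, if R x y then 1 else 0 := by
  unfold pairs
  rw [Finset.card_filter, Finset.sum_product]

open Classical in
theorem Pr_deg {V : Type} (R : V → V → Prop) (S : Finset V) (x : V) :
    deg R S x = ∑ y ∈ S, if R x y then 1 else 0 := by
  unfold deg
  rw [Finset.card_filter]

theorem pairs_erase {V : Type} [DecidableEq V] (R : V → V → Prop) (hs : ∀ x y, R x y → R y x)
    (hi : ∀ x, ¬ R x x) (S : Finset V) (v : V) (hv : v ∈ S) :
    pairs R S = pairs R (S.erase v) + 2 * deg R S v := by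
  classical
  rw [Pr_pairs, Pr_pairs, Pr_deg]
  have h1 : ∀ f : V → ℕ, ∑ x ∈ S, f x = f v + ∑ x ∈ S.erase v, f x :=
    fun f => (Finset.add_sum_erase S f hv).symm
  rw [h1, h1 (fun y => if R v y then 1 else 0)]
  have h2 : ∀ x ∈ S.erase v, (∑ y ∈ S, if R x y then 1 else 0) =
      (if R v x then 1 else 0) + ∑ y ∈ S.erase v, if R x y then 1 else 0 := by
    intro x _
    rw [h1]
    have : (R x v) ↔ (R v x) := ⟨hs _ _, hs _ _⟩
    simp only [this]
  rw [Finset.sum_congr rfl h2, Finset.sum_add_distrib]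
  simp only [hi, if_false]
  omega

theorem pairs_split {V : Type} [DecidableEq V] (R : V → V → Prop) (hs : ∀ x y, R x y → R y x)
    (S T : Finset V) (hT : T ⊆ S) (hcl : ∀ x ∈ T, ∀ y ∈ S, R x y → y ∈ T) :
    pairs R S = pairs R T + pairs R (S \ T) := by
  classical
  rw [Pr_pairs, Pr_pairs, Pr_pairs]
  have h1 : ∀ f : V → ℕ, ∑ x ∈ S, f x = ∑ x ∈ S \ T, f x + ∑ x ∈ T, f x :=
    fun f => (Finset.sum_sdiff hT).symm
  rw [h1]
  have h2 : ∀ x ∈ T, (∑ y ∈ S, if R x y then 1 else 0) = ∑ y ∈ T, if R x y then 1 else 0 := by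
    intro x hx
    rw [h1]
    have : (∑ y ∈ S \ T, if R x y then 1 else 0) = 0 := by
      apply Finset.sum_eq_zero
      intro y hy
      rw [Finset.mem_sdiff] at hy
      rw [if_neg]
      exact fun h => hy.2 (hcl x hx y hy.1 h)
    rw [this, zero_add]
  have h3 : ∀ x ∈ S \ T, (∑ y ∈ S, if R x y then 1 else 0) =
      ∑ y ∈ S \ T, if R x y then 1 else 0 := by
    intro x hx
    rw [Finset.mem_sdiff] at hx
    rw [h1]
    have : (∑ y ∈ T, if R x y then 1 else 0) = 0 := by
      apply Finset.sum_eq_zero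
      intro y hy
      rw [if_neg]
      exact fun h => hx.2 (hcl y hy x hx.1 (hs _ _ h))
    rw [this, add_zero]
  rw [Finset.sum_congr rfl h2, Finset.sum_congr rfl h3, add_comm]

theorem pairs_le_sq {V : Type} (R : V → V → Prop) (hi : ∀ x, ¬ R x x) (T : Finset V) :
    pairs R T ≤ T.card * (T.card - 1) := by
  classical
  unfold pairs
  have h1 : T.card * (T.card - 1) = T.offDiag.card := by
    rw [Finset.offDiag_card, Nat.mul_sub_one]
  rw [h1]
  apply Finset.card_le_card
  intro p hp
  rw [Finset.mem_filter, Finset.mem_product] at hp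
  rw [Finset.mem_offDiag]
  refine ⟨hp.1.1, hp.1.2, fun h => ?_⟩
  have h2 := hp.2
  rw [h] at h2
  exact hi _ h2

end Pool.Agent.H32.IP
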